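import Pool.Agent.N295.RC.Fun

/-!
# Computations in `C([1, 2])`
-/

set_option autoImplicit false

open MeasureTheory Filter Topology Set
open scoped ComplexOrder

namespace Pool.Agent.N295.RC

lemma eT_apply (t : ℝ) (x : K) : eT t x = E (t * x) := rfl

lemma eT_zero : eT 0 = 1 := by
  ext x
  simp [eT_apply, E_zero]

lemma eT_add (s t : ℝ) : eT (s + t) = eT s * eT t := by
  ext x
  rw [ContinuousMap.mul_apply, eT_apply, eT_apply, eT_apply, ← E_add]
  congr 1; ring

lemma star_eT (t : ℝ) : star (eT t) = eT (-t) := by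
  ext x
  rw [ContinuousMap.star_apply, eT_apply, eT_apply, RCLike.star_def, conj_E]
  congr 1; ring

lemma norm_eT (t : ℝ) : ‖eT t‖ ≤ 1 :=
  (ContinuousMap.norm_le _ zero_le_one).2 fun x => by rw [eT_apply, norm_E]

lemma eT_cont : Continuous eT := by
  have := E_cont
  have h : Continuous fun p : ℝ × K => E (p.1 * p.2) := by fun_prop
  exact (ContinuousMap.curry ⟨_, h⟩).continuous

/-- the Cayley identity -/
lemma E_ph (x : ℝ) : (1 - x * Complex.I) * E (ph x) = 1 + x * Complex.I := by
  have h1 : E (ph x) = E (Real.arctan x) ^ 2 := by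
    unfold ph
    rw [two_mul, E_add, pow_two]
  have h2 : E (Real.arctan x) = (1 + x * Complex.I) / ((√(1 + x ^ 2) : ℝ) : ℂ) := by
    unfold E
    rw [Complex.exp_mul_I, ← Complex.ofReal_cos, ← Complex.ofReal_sin, Real.cos_arctan,
      Real.sin_arctan]
    push_cast
    ring
  have h3 : ((√(1 + x ^ 2) : ℝ) : ℂ) ^ 2 = (1 - x * Complex.I) * (1 + x * Complex.I) := by
    rw [← Complex.ofReal_pow, Real.sq_sqrt (by positivity)]
    push_cast
    linear_combination (x : ℂ) ^ 2 * Complex.I_sq
  have h4 : ((√(1 + x ^ 2) : ℝ) : ℂ) ^ 2 ≠ 0 := by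
    rw [← Complex.ofReal_pow, Real.sq_sqrt (by positivity)]
    have : (1 + x ^ 2 : ℝ) ≠ 0 := by positivity
    exact_mod_cast this
  rw [h1, h2, div_pow, ← mul_div_assoc, div_eq_iff h4, h3]
  ring

lemma den_ne (x : ℝ) : (1 - x * Complex.I : ℂ) ≠ 0 := by
  intro h
  have := congrArg Complex.re h
  simp at this

/-- the resolvent function `1 / (1 - i x)` -/
noncomputable def rr : C(K, ℂ) := ⟨fun x => (1 - (x : ℝ) * Complex.I)⁻¹, by
  apply Continuous.inv₀
  · fun_prop
  · exact fun x => den_ne x⟩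

/-- the Cayley function -/
noncomputable def ww : C(K, ℂ) := 1 - (2 : ℂ) • rr

lemma ww_apply (x : K) : ww x = -E (ph x) := by
  have h1 : ww x = 1 - 2 * (1 - (x : ℝ) * Complex.I)⁻¹ := rfl
  have h2 := den_ne x
  have h3 := E_ph x
  rw [h1]
  have h4 : E (ph x) = (1 + (x : ℝ) * Complex.I) / (1 - (x : ℝ) * Complex.I) := by
    rw [eq_div_iff h2, mul_comm]; exact h3
  rw [h4]
  field_simp
  ring

lemma star_ww_pow (n : ℕ) : star (ww ^ n) = (-1 : ℂ) ^ n • vM n := by
  ext x
  rw [ContinuousMap.star_apply, ContinuousMap.pow_apply, ww_apply, ContinuousMap.smul_apply,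
    RCLike.star_def, map_pow, map_neg, conj_E, neg_pow, smul_eq_mul]
  congr 1
  change E (-ph x) ^ n = E (-((n : ℝ) * ph x))
  rw [← E_nat_mul]
  congr 1; ring

lemma eT_integrable : IntegrableOn (fun t : ℝ => ((Real.exp (-t) : ℝ) : ℂ) • eT t) (Ioi 0) := by
  have h1 : IntegrableOn (fun t : ℝ => Real.exp (-t)) (Ioi 0) := by
    have := exp_neg_integrableOn_Ioi 0 one_pos
    simpa using this
  apply Integrable.mono' h1
  · apply Continuous.aestronglyMeasurable
    have := eT_cont
    fun_prop
  · refine Eventually.of_forall fun t => ?_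
    rw [norm_smul, Complex.norm_real, Real.norm_eq_abs, abs_of_pos (Real.exp_pos _)]
    have := norm_eT t
    have h2 := Real.exp_pos (-t)
    nlinarith

lemma integral_eT : ∫ t in Ioi (0 : ℝ), ((Real.exp (-t) : ℝ) : ℂ) • eT t = rr := by
  ext x
  have h1 : (∫ t in Ioi (0 : ℝ), ((Real.exp (-t) : ℝ) : ℂ) • eT t) x =
      ∫ t in Ioi (0 : ℝ), (((Real.exp (-t) : ℝ) : ℂ) • eT t) x := by
    have := (ContinuousMap.evalCLM ℂ x : C(K, ℂ) →L[ℂ] ℂ).integral_comp_comm eT_integrable
    exact this.symm
  rw [h1]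
  have h2 : ∀ t : ℝ, (((Real.exp (-t) : ℝ) : ℂ) • eT t) x =
      Complex.exp ((-1 + (x : ℝ) * Complex.I) * t) := by
    intro t
    change ((Real.exp (-t) : ℝ) : ℂ) * E (t * x) = _
    unfold E
    rw [Complex.ofReal_exp, ← Complex.exp_add]
    congr 1
    push_cast
    ring
  simp_rw [h2]
  rw [integral_exp_mul_complex_Ioi (by simp)]
  simp only [Complex.ofReal_zero, mul_zero, Complex.exp_zero]
  change _ = (1 - (x : ℝ) * Complex.I)⁻¹
  have h3 := den_ne x
  have h4 : (-1 + (x : ℝ) * Complex.I : ℂ) = -(1 - (x : ℝ) * Complex.I) := by ring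
  rw [h4, div_neg, neg_div, neg_neg, one_div]

/-- the span of the exponentials is dense -/
lemma span_dense : (Submodule.span ℂ (range eT)).topologicalClosure = ⊤ := by
  have hmul : ∀ a b : C(K, ℂ), a ∈ Submodule.span ℂ (range eT) → b ∈ Submodule.span ℂ (range eT) →
      a * b ∈ Submodule.span ℂ (range eT) := by
    intro a b ha hb
    have h1 : a * b ∈ Submodule.span ℂ (range eT) * Submodule.span ℂ (range eT) :=
      Submodule.mul_mem_mul ha hb
    rw [Submodule.span_mul_span] at h1
    refine Submodule.span_mono ?_ h1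
    rintro _ ⟨_, ⟨s, rfl⟩, _, ⟨t, rfl⟩, rfl⟩
    exact ⟨s + t, eT_add s t⟩
  have hstar : ∀ a : C(K, ℂ), a ∈ Submodule.span ℂ (range eT) →
      star a ∈ Submodule.span ℂ (range eT) := by
    intro a ha
    induction ha using Submodule.span_induction with
    | mem x hx =>
      obtain ⟨t, rfl⟩ := hx
      rw [star_eT]
      exact Submodule.subset_span ⟨_, rfl⟩
    | zero => rw [star_zero]; exact Submodule.zero_mem _
    | add x y _ _ h1 h2 => rw [star_add]; exact Submodule.add_mem _ h1 h2
    | smul c x _ h => rw [star_smul]; exact Submodule.smul_mem _ _ h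
  let S : StarSubalgebra ℂ C(K, ℂ) :=
    { carrier := (Submodule.span ℂ (range eT) : Set C(K, ℂ))
      mul_mem' := fun {a b} ha hb => hmul a b ha hb
      one_mem' := by rw [← eT_zero]; exact Submodule.subset_span ⟨0, rfl⟩
      add_mem' := fun {a b} ha hb => Submodule.add_mem _ ha hb
      zero_mem' := Submodule.zero_mem _
      algebraMap_mem' := fun r => by
        rw [Algebra.algebraMap_eq_smul_one, ← eT_zero]
        exact Submodule.smul_mem _ _ (Submodule.subset_span ⟨0, rfl⟩)
      star_mem' := fun {a} ha => hstar a ha }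
  have hsep : S.SeparatesPoints := by
    intro x y hxy
    refine ⟨eT 1, ⟨eT 1, Submodule.subset_span ⟨1, rfl⟩, rfl⟩, ?_⟩
    intro h
    rw [eT_apply, eT_apply, one_mul, one_mul] at h
    unfold E at h
    rw [Complex.exp_eq_exp_iff_exists_int] at h
    obtain ⟨n, hn⟩ := h
    have h1 : (x : ℝ) = (y : ℝ) + n * (2 * Real.pi) := by
      have h2 : ((x : ℝ) : ℂ) = ((y : ℝ) : ℂ) + n * (2 * Real.pi) := by
        have hI := Complex.I_ne_zero
        apply mul_right_cancel₀ hI
        rw [hn]; ring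
      exact_mod_cast h2
    have hpi := Real.pi_gt_three
    have hx := x.2
    have hy := y.2
    have h3 : n = 0 := by
      by_contra hne
      rcases lt_or_gt_of_ne hne with h4 | h4
      · have : (n : ℝ) ≤ -1 := by exact_mod_cast Int.le_sub_one_of_lt h4
        nlinarith [hx.1, hx.2, hy.1, hy.2]
      · have : (1 : ℝ) ≤ n := by exact_mod_cast h4
        nlinarith [hx.1, hx.2, hy.1, hy.2]
    rw [h3] at h1
    apply hxy
    apply Subtype.ext
    simpa using h1
  have h := ContinuousMap.starSubalgebra_topologicalClosure_eq_top_of_separatesPoints S hsep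
  rw [Submodule.eq_top_iff']
  intro f
  have h1 : f ∈ S.topologicalClosure := by rw [h]; trivial
  exact h1

end Pool.Agent.N295.RC
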