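import Pool.Agent.N295.RC.Seq

/-!
# The limit functional on `C([1, 2])`
-/

set_option autoImplicit false

open MeasureTheory Filter Topology Set
open scoped ComplexOrder

namespace Pool.Agent.N295.RC

/-- the compact space `[1, 2]` -/
abbrev K : Type := Icc (1 : ℝ) 2

lemma h12 : (1 : ℝ) ≤ 2 := by norm_num

/-- extension to the line -/
noncomputable def ex (f : C(K, ℂ)) (x : ℝ) : ℂ := f (projIcc 1 2 h12 x)

lemma ex_cont (f : C(K, ℂ)) : Continuous (ex f) := f.continuous.comp continuous_projIcc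

lemma ex_apply (f : C(K, ℂ)) {x : ℝ} (hx : x ∈ Icc (1 : ℝ) 2) : ex f x = f ⟨x, hx⟩ := by
  unfold ex; rw [projIcc_of_mem h12 hx]

lemma mass_int (j : ℕ) : ∫ x in Icc (1 : ℝ) 2, (sq j).g x ≤ 2 := by
  have h := mass j
  have h1 : om (sq j).g (tf 0 0) = ((∫ x in Icc (1 : ℝ) 2, (sq j).g x : ℝ) : ℂ) := by
    unfold om
    rw [← integral_complex_ofReal]
    congr 1
    funext x
    simp [tf, E_zero]
  rw [h1] at h
  have h2 : ‖(((∫ x in Icc (1 : ℝ) 2, (sq j).g x) - 1 : ℝ) : ℂ)‖ ≤ 1 / 8 := by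
    push_cast
    exact h
  rw [Complex.norm_real, Real.norm_eq_abs] at h2
  linarith [(abs_le.1 h2).2]

lemma lam_bound (j : ℕ) (f : C(K, ℂ)) : ‖om (sq j).g (ex f)‖ ≤ 2 * ‖f‖ := by
  unfold om
  calc ‖∫ x in Icc (1 : ℝ) 2, ex f x * (((sq j).g x : ℝ) : ℂ)‖
      ≤ ∫ x in Icc (1 : ℝ) 2, ‖f‖ * (sq j).g x := by
        apply norm_integral_le_of_norm_le
        · exact (continuous_const.mul (sq j).c).continuousOn.integrableOn_Icc
        · refine Eventually.of_forall fun x => ?_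
          rw [norm_mul, Complex.norm_real, Real.norm_eq_abs, abs_of_nonneg ((sq j).nn x)]
          exact mul_le_mul_of_nonneg_right (f.norm_coe_le_norm _) ((sq j).nn x)
    _ = ‖f‖ * ∫ x in Icc (1 : ℝ) 2, (sq j).g x := integral_const_mul _ _
    _ ≤ ‖f‖ * 2 := mul_le_mul_of_nonneg_left (mass_int j) (norm_nonneg _)
    _ = 2 * ‖f‖ := mul_comm _ _

/-- the functionals -/
noncomputable def Lam (j : ℕ) : StrongDual ℂ C(K, ℂ) :=
  LinearMap.mkContinuous
    { toFun := fun f => om (sq j).g (ex f)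
      map_add' := by
        intro f g
        have hg : Continuous fun x => (((sq j).g x : ℝ) : ℂ) :=
          Complex.continuous_ofReal.comp (sq j).c
        have h1 : Continuous fun x => ex f x * (((sq j).g x : ℝ) : ℂ) := (ex_cont f).mul hg
        have h2 : Continuous fun x => ex g x * (((sq j).g x : ℝ) : ℂ) := (ex_cont g).mul hg
        unfold om
        rw [← integral_add (int_on h1) (int_on h2)]
        congr 1
        funext x
        simp [ex, add_mul]
      map_smul' := by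
        intro c f
        unfold om
        rw [RingHom.id_apply, smul_eq_mul, ← integral_const_mul]
        congr 1
        funext x
        simp [ex, mul_assoc] } 2 (lam_bound j)

lemma Lam_apply (j : ℕ) (f : C(K, ℂ)) : Lam j f = om (sq j).g (ex f) := rfl

lemma norm_Lam (j : ℕ) : ‖Lam j‖ ≤ 2 := LinearMap.mkContinuous_norm_le _ (by norm_num) _

lemma exists_limit_aux {V : Type*} [NormedAddCommGroup V] [NormedSpace ℂ V]
    (F : ℕ → StrongDual ℂ V) (C : ℝ) (hF : ∀ j, ‖F j‖ ≤ C) : ∃ L : StrongDual ℂ V, ∀ f : V,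
    Tendsto (fun j => F j f) (hyperfilter ℕ : Filter ℕ) (𝓝 (L f)) := by
  have hc := WeakDual.isCompact_closedBall (𝕜 := ℂ) (E := V) 0 C
  have h1 : ((hyperfilter ℕ).map (fun j => StrongDual.toWeakDual (F j)) :
      Filter (WeakDual ℂ V)) ≤ 𝓟 (WeakDual.toStrongDual ⁻¹' Metric.closedBall 0 C) := by
    rw [le_principal_iff]
    refine Filter.mem_map.2 (univ_mem' fun j => ?_)
    change WeakDual.toStrongDual (StrongDual.toWeakDual (F j)) ∈ Metric.closedBall 0 C
    rw [StrongDual.toStrongDual_toWeakDual, mem_closedBall_zero_iff]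
    exact hF j
  obtain ⟨x, _, hx⟩ := hc.ultrafilter_le_nhds _ h1
  refine ⟨WeakDual.toStrongDual x, fun f => ?_⟩
  have h2 : Tendsto (fun j => StrongDual.toWeakDual (F j)) (hyperfilter ℕ : Filter ℕ) (𝓝 x) := hx
  exact ((WeakDual.eval_continuous f).tendsto x).comp h2

lemma exists_limit : ∃ L : StrongDual ℂ C(K, ℂ), ∀ f : C(K, ℂ),
    Tendsto (fun j => Lam j f) (hyperfilter ℕ : Filter ℕ) (𝓝 (L f)) :=
  exists_limit_aux Lam 2 norm_Lam

/-- exponentials on `K` -/
noncomputable def eT (t : ℝ) : C(K, ℂ) := ⟨fun x => E (t * x), by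
  have := E_cont
  fun_prop⟩

/-- `exp(- i m ph)` on `K` -/
noncomputable def vM (m : ℕ) : C(K, ℂ) := ⟨fun x => E (-((m : ℝ) * ph x)), by
  have := E_cont
  have := ph_cont
  fun_prop⟩

lemma Lam_eT (j : ℕ) (t : ℝ) : Lam j (eT t) = om (sq j).g (tf t 0) := by
  rw [Lam_apply]
  unfold om
  apply setIntegral_congr_fun measurableSet_Icc
  intro x hx
  simp only [ex_apply _ hx]
  simp [eT, tf, E_zero]

lemma Lam_vM (j : ℕ) (m : ℕ) : Lam j (vM m) = om (sq j).g (tf 0 m) := by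
  rw [Lam_apply]
  unfold om
  apply setIntegral_congr_fun measurableSet_Icc
  intro x hx
  simp only [ex_apply _ hx]
  simp [vM, tf, E_zero]

lemma Lam_eT_tendsto (j : ℕ) : Tendsto (fun t : ℝ => Lam j (eT t)) (cocompact ℝ) (𝓝 0) := by
  have h := rl_real ((Icc (1 : ℝ) 2).indicator fun x => (((sq j).g x : ℝ) : ℂ))
  refine h.congr fun t => ?_
  rw [Lam_eT]
  unfold om
  rw [← integral_indicator measurableSet_Icc]
  congr 1
  funext x
  by_cases hx : x ∈ Icc (1 : ℝ) 2
  · rw [indicator_of_mem hx, indicator_of_mem hx]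
    simp [tf, E_zero]
  · rw [indicator_of_notMem hx, indicator_of_notMem hx, mul_zero]

lemma Lam_nonneg (j : ℕ) (f : C(K, ℂ)) (hf : 0 ≤ f) : 0 ≤ Lam j f := by
  rw [Lam_apply]
  unfold om
  have h1 : ∀ x : ℝ, ex f x * (((sq j).g x : ℝ) : ℂ) = (((ex f x).re * (sq j).g x : ℝ) : ℂ) := by
    intro x
    have h2 : 0 ≤ ex f x := (ContinuousMap.le_def.1 hf) _
    have h3 : ex f x = ((ex f x).re : ℂ) := by
      apply Complex.ext
      · simp
      · simp [(Complex.nonneg_iff.1 h2).2.symm]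
    conv_lhs => rw [h3]
    push_cast
    rfl
  simp_rw [h1]
  rw [integral_complex_ofReal]
  have h4 : 0 ≤ ∫ x in Icc (1 : ℝ) 2, (ex f x).re * (sq j).g x := by
    apply integral_nonneg
    intro x
    have h2 : 0 ≤ ex f x := (ContinuousMap.le_def.1 hf) _
    exact mul_nonneg (Complex.nonneg_iff.1 h2).1 ((sq j).nn x)
  exact_mod_cast h4

/-- **The functional.** -/
theorem exists_functional : ∃ L : StrongDual ℂ C(K, ℂ),
    (∀ f : C(K, ℂ), 0 ≤ f → 0 ≤ L f) ∧
    Tendsto (fun t : ℝ => L (eT t)) (cocompact ℝ) (𝓝 0) ∧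
    ∀ k : ℕ, ∃ m : ℕ, k ≤ m ∧ 1 / 4 ≤ ‖L (vM m)‖ := by
  obtain ⟨L, hL⟩ := exists_limit
  refine ⟨L, fun f hf => ?_, ?_, fun k => ?_⟩
  · exact ge_of_tendsto' (hL f) fun j => Lam_nonneg j f hf
  · rw [Metric.tendsto_nhds]
    intro ε hε
    have h1 : Tendsto (fun k : ℕ => 2 * tol k) atTop (𝓝 0) := by
      unfold tol
      have := (tendsto_pow_atTop_nhds_zero_of_lt_one (r := (1 / 2 : ℝ)) (by norm_num)
        (by norm_num)).const_mul (2 * (1 / 16))
      simpa [mul_assoc] using this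
    obtain ⟨k, hk⟩ := (h1.eventually_lt_const (half_pos hε)).exists
    have h2 := Metric.tendsto_nhds.1 (Lam_eT_tendsto k) (ε / 2) (half_pos hε)
    filter_upwards [h2] with t ht
    rw [dist_zero_right] at ht ⊢
    have h3 : ‖L (eT t) - Lam k (eT t)‖ ≤ 2 * tol k := by
      have h4 : Tendsto (fun j => ‖Lam j (eT t) - Lam k (eT t)‖) (hyperfilter ℕ : Filter ℕ)
          (𝓝 ‖L (eT t) - Lam k (eT t)‖) := ((hL (eT t)).sub_const _).norm
      apply le_of_tendsto h4
      have h5 : ∀ᶠ j : ℕ in (hyperfilter ℕ : Filter ℕ), k ≤ j :=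
        Nat.hyperfilter_le_atTop (eventually_ge_atTop k)
      filter_upwards [h5] with j hj
      rw [Lam_eT, Lam_eT]
      exact sq_stable' (Nat.zero_le _) t hj
    calc ‖L (eT t)‖ = ‖(L (eT t) - Lam k (eT t)) + Lam k (eT t)‖ := by rw [sub_add_cancel]
      _ ≤ ‖L (eT t) - Lam k (eT t)‖ + ‖Lam k (eT t)‖ := norm_add_le _ _
      _ < ε := by linarith
  · refine ⟨(sq (k + 1)).N, ?_, ?_⟩
    · exact (Nat.le_succ k).trans (sq_mono.id_le (k + 1))
    · have h4 : Tendsto (fun j => ‖Lam j (vM (sq (k + 1)).N)‖) (hyperfilter ℕ : Filter ℕ)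
          (𝓝 ‖L (vM (sq (k + 1)).N)‖) := (hL _).norm
      apply ge_of_tendsto h4
      have h5 : ∀ᶠ j : ℕ in (hyperfilter ℕ : Filter ℕ), k + 1 ≤ j :=
        Nat.hyperfilter_le_atTop (eventually_ge_atTop (k + 1))
      filter_upwards [h5] with j hj
      rw [Lam_vM]
      exact large hj

end Pool.Agent.N295.RC
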