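import Pool.Agent.N295.RC.Alg

/-!
# The semigroup
-/

set_option autoImplicit false

open MeasureTheory Filter Topology Set
open scoped ComplexOrder

namespace Pool.Agent.N295.RC

/-- weak convergence to `0` on a dense set, for contractions -/
lemma weak_of_dense {H : Type*} [NormedAddCommGroup H] [InnerProductSpace ℂ H] {ι : Type*}
    {l : Filter ι} (T : ι → H →L[ℂ] H) (hT : ∀ i, ‖T i‖ ≤ 1) {D : Set H} (hD : Dense D)
    (h : ∀ x ∈ D, ∀ y ∈ D, Tendsto (fun i => inner ℂ (T i x) y) l (𝓝 0)) (x y : H) :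
    Tendsto (fun i => inner ℂ (T i x) y) l (𝓝 0) := by
  rw [Metric.tendsto_nhds]
  intro ε hε
  set M : ℝ := ‖x‖ + ‖y‖ + 1 with hM
  have hM0 : 0 < M := by positivity
  set δ : ℝ := min 1 (ε / (4 * M)) with hδ
  have hδ0 : 0 < δ := by positivity
  obtain ⟨x', hx', hxd⟩ := Metric.dense_iff.1 hD x δ hδ0
  obtain ⟨y', hy', hyd⟩ := Metric.dense_iff.1 hD y δ hδ0
  have h1 := Metric.tendsto_nhds.1 (h x' hxd y' hyd) (ε / 2) (half_pos hε)
  filter_upwards [h1] with i hi
  rw [dist_zero_right] at hi ⊢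
  rw [Metric.mem_ball, dist_eq_norm] at hx' hy'
  have hT' : ∀ z, ‖T i z‖ ≤ ‖z‖ := fun z =>
    ((T i).le_opNorm z).trans (by nlinarith [hT i, norm_nonneg z])
  have e : inner ℂ (T i x) y = inner ℂ (T i x') y' - inner ℂ (T i (x' - x)) y -
      inner ℂ (T i x') (y' - y) := by
    rw [map_sub, inner_sub_left, inner_sub_right]; ring
  have hx1 : ‖x'‖ ≤ M := by
    have : ‖x'‖ ≤ ‖x' - x‖ + ‖x‖ := by
      calc ‖x'‖ = ‖(x' - x) + x‖ := by rw [sub_add_cancel]
        _ ≤ _ := norm_add_le _ _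
    have h2 : δ ≤ 1 := min_le_left _ _
    have := norm_nonneg y
    linarith
  have hy1 : ‖y‖ ≤ M := by
    have := norm_nonneg x
    linarith
  have hδM : δ * M ≤ ε / 4 := by
    have h2 : δ ≤ ε / (4 * M) := min_le_right _ _
    calc δ * M ≤ ε / (4 * M) * M := mul_le_mul_of_nonneg_right h2 hM0.le
      _ = ε / 4 := by field_simp
  rw [e]
  have b1 : ‖(inner ℂ (T i (x' - x)) y : ℂ)‖ ≤ δ * M := by
    refine (norm_inner_le_norm _ _).trans ?_
    exact mul_le_mul ((hT' _).trans hx'.le) hy1 (norm_nonneg _) hδ0.le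
  have b2 : ‖(inner ℂ (T i x') (y' - y) : ℂ)‖ ≤ δ * M := by
    refine (norm_inner_le_norm _ _).trans ?_
    rw [mul_comm]
    exact mul_le_mul hy'.le ((hT' _).trans hx1) (norm_nonneg _) hδ0.le
  calc ‖inner ℂ (T i x') y' - inner ℂ (T i (x' - x)) y - inner ℂ (T i x') (y' - y)‖
      ≤ ‖(inner ℂ (T i x') y' : ℂ)‖ + ‖(inner ℂ (T i (x' - x)) y : ℂ)‖ +
        ‖(inner ℂ (T i x') (y' - y) : ℂ)‖ := by
        refine (norm_sub_le _ _).trans ?_
        gcongr
        exact norm_sub_le _ _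
    _ < ε := by linarith

/-- the coefficients against any continuous function tend to zero -/
lemma coeff_tendsto {L : StrongDual ℂ C(K, ℂ)}
    (hL : Tendsto (fun t : ℝ => L (eT t)) (cocompact ℝ) (𝓝 0)) (c : C(K, ℂ)) :
    Tendsto (fun t : ℝ => L (eT (-t) * c)) atTop (𝓝 0) := by
  have hspan : ∀ c ∈ Submodule.span ℂ (range eT),
      Tendsto (fun t : ℝ => L (eT (-t) * c)) atTop (𝓝 0) := by
    intro c hc
    induction hc using Submodule.span_induction with
    | mem x hx =>
      obtain ⟨s, rfl⟩ := hx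
      have h1 : Tendsto (fun t : ℝ => -t + s) atTop (cocompact ℝ) := by
        have h2 : Tendsto (fun t : ℝ => -t + s) atTop atBot :=
          tendsto_atBot_add_const_right _ _ tendsto_neg_atTop_atBot
        exact h2.mono_right atBot_le_cocompact
      refine (hL.comp h1).congr fun t => ?_
      simp only [Function.comp]
      rw [eT_add]
    | zero => simp
    | add x y _ _ h1 h2 =>
      have := h1.add h2
      simpa [mul_add] using this
    | smul a x _ h =>
      have h3 := h.const_mul a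
      rw [mul_zero] at h3
      refine h3.congr fun t => ?_
      rw [mul_smul_comm, map_smul, smul_eq_mul]
  have hd : c ∈ closure (Submodule.span ℂ (range eT) : Set C(K, ℂ)) := by
    have : c ∈ (Submodule.span ℂ (range eT)).topologicalClosure := by
      rw [span_dense]; trivial
    exact this
  rw [Metric.tendsto_nhds]
  intro ε hε
  set δ : ℝ := ε / (2 * (‖L‖ + 1)) with hδ
  have hδ0 : 0 < δ := by positivity
  obtain ⟨c', hc', hcd⟩ := Metric.mem_closure_iff.1 hd δ hδ0
  have h1 := Metric.tendsto_nhds.1 (hspan c' hc') (ε / 2) (half_pos hε)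
  filter_upwards [h1] with t ht
  rw [dist_zero_right] at ht ⊢
  rw [dist_eq_norm] at hcd
  have e : L (eT (-t) * c) = L (eT (-t) * (c - c')) + L (eT (-t) * c') := by
    rw [← map_add, ← mul_add, sub_add_cancel]
  have b : ‖L (eT (-t) * (c - c'))‖ ≤ ε / 2 := by
    calc ‖L (eT (-t) * (c - c'))‖ ≤ ‖L‖ * ‖eT (-t) * (c - c')‖ := L.le_opNorm _
      _ ≤ ‖L‖ * (1 * δ) := by
          gcongr
          refine (norm_mul_le _ _).trans ?_
          exact mul_le_mul (norm_eT _) hcd.le (norm_nonneg _) zero_le_one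
      _ ≤ (‖L‖ + 1) * δ := by nlinarith [norm_nonneg L]
      _ = ε / 2 := by rw [hδ]; field_simp
  rw [e]
  refine (norm_add_le _ _).trans_lt ?_
  linarith

/-- **The contractive semigroup**: weakly stable, with a cogenerator that is not. -/
theorem main : ∃ (H : Type) (_ : NormedAddCommGroup H) (_ : InnerProductSpace ℂ H)
    (_ : CompleteSpace H) (T : ℝ → H →L[ℂ] H),
      T 0 = 1 ∧
      (∀ s t : ℝ, T (s + t) = T s * T t) ∧
      (∀ x : H, Continuous (fun t : ℝ => T t x)) ∧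
      (∀ t : ℝ, ‖T t‖ ≤ 1) ∧
      (∀ x y : H, Tendsto (fun t : ℝ => inner ℂ (T t x) y) atTop (𝓝 0)) ∧
      ∃ x : H, ∀ k : ℕ, ∃ m : ℕ, k ≤ m ∧ 1 / 4 ≤ ‖(inner ℂ ((fun z : H => z - (2 : ℂ) •
              ∫ t in Set.Ioi (0 : ℝ), ((Real.exp (-t) : ℝ) : ℂ) • T t z)^[m] x) x : ℂ)‖ := by
  obtain ⟨L, hpos, hL, hbig⟩ := exists_functional
  let P : C(K, ℂ) →ₚ[ℂ] ℂ := PositiveLinearMap.mk₀ L.toLinearMap hpos
  let π := P.gnsStarAlgHom
  have hPL : ∀ a, P a = L a := fun a => rfl
  have hinner : ∀ a b : C(K, ℂ),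
      inner ℂ ((P.toPreGNS a : P.PreGNS) : P.GNS) ((P.toPreGNS b : P.PreGNS) : P.GNS) =
        L (star a * b) := by
    intro a b
    rw [UniformSpace.Completion.inner_coe, PositiveLinearMap.preGNS_inner_def]
    rfl
  have hπ : ∀ a b : C(K, ℂ), π a ((P.toPreGNS b : P.PreGNS) : P.GNS) =
      ((P.toPreGNS (a * b) : P.PreGNS) : P.GNS) := by
    intro a b
    change P.gnsNonUnitalStarAlgHom a _ = _
    rw [PositiveLinearMap.gnsNonUnitalStarAlgHom_apply_coe]
    rfl
  have hπn : ∀ a, ‖π a‖ ≤ ‖a‖ := fun a => NonUnitalStarAlgHom.norm_apply_le π a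
  let πc : C(K, ℂ) →L[ℂ] (P.GNS →L[ℂ] P.GNS) :=
    LinearMap.mkContinuous (π : C(K, ℂ) →ₗ[ℂ] (P.GNS →L[ℂ] P.GNS)) 1
      (fun a => by rw [one_mul]; exact hπn a)
  have hπc : ∀ a, πc a = π a := fun a => rfl
  have hdense : Dense (range fun a : C(K, ℂ) => ((P.toPreGNS a : P.PreGNS) : P.GNS)) := by
    have h1 : DenseRange ((↑) : P.PreGNS → P.GNS) := UniformSpace.Completion.denseRange_coe
    have h2 : range (fun a : C(K, ℂ) => ((P.toPreGNS a : P.PreGNS) : P.GNS)) =
        range ((↑) : P.PreGNS → P.GNS) := by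
      ext z
      constructor
      · rintro ⟨a, rfl⟩
        exact ⟨P.toPreGNS a, rfl⟩
      · rintro ⟨a, rfl⟩
        exact ⟨P.ofPreGNS a, rfl⟩
    rw [h2]
    exact h1
  refine ⟨P.GNS, inferInstance, inferInstance, inferInstance, fun t => π (eT t), ?_, ?_, ?_, ?_,
    ?_, ?_⟩
  · simp only [eT_zero, map_one]
  · intro s t
    simp only [eT_add, map_mul]
  · intro x
    have h1 : Continuous fun t : ℝ => πc (eT t) := πc.continuous.comp eT_cont
    exact h1.clm_apply continuous_const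
  · intro t
    exact (hπn _).trans (norm_eT t)
  · apply weak_of_dense (fun t : ℝ => π (eT t)) (fun t => (hπn _).trans (norm_eT t)) hdense
    rintro _ ⟨a, rfl⟩ _ ⟨b, rfl⟩
    refine (coeff_tendsto hL (star a * b)).congr fun t => ?_
    simp only
    rw [hπ, hinner, star_mul, star_eT]
    congr 1
    rw [mul_comm (star a) (eT (-t)), mul_assoc]
  · refine ⟨((P.toPreGNS 1 : P.PreGNS) : P.GNS), fun k => ?_⟩
    obtain ⟨m, hm, hbm⟩ := hbig k
    refine ⟨m, hm, ?_⟩
    have hV : (fun z : P.GNS => z - (2 : ℂ) •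
        ∫ t in Set.Ioi (0 : ℝ), ((Real.exp (-t) : ℝ) : ℂ) • π (eT t) z) = fun z => π ww z := by
      funext z
      let ev : C(K, ℂ) →L[ℂ] P.GNS := (ContinuousLinearMap.apply ℂ P.GNS z).comp πc
      have h1 := ev.integral_comp_comm eT_integrable
      rw [integral_eT] at h1
      have h2 : (fun t : ℝ => ev (((Real.exp (-t) : ℝ) : ℂ) • eT t)) =
          fun t : ℝ => ((Real.exp (-t) : ℝ) : ℂ) • π (eT t) z := by
        funext t
        rw [map_smul]
        rfl
      rw [h2] at h1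
      rw [h1]
      change z - (2 : ℂ) • π rr z = π ww z
      unfold ww
      rw [map_sub, map_one, map_smul]
      rfl
    rw [hV]
    have hit : ∀ n : ℕ, (fun z : P.GNS => π ww z)^[n] ((P.toPreGNS 1 : P.PreGNS) : P.GNS) =
        ((P.toPreGNS (ww ^ n) : P.PreGNS) : P.GNS) := by
      intro n
      induction n with
      | zero => rw [pow_zero]; rfl
      | succ n ih =>
        rw [Function.iterate_succ_apply', ih, hπ, pow_succ']
    rw [hit, hinner, star_ww_pow, mul_one, map_smul, norm_smul, norm_pow, norm_neg, norm_one,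
      one_pow, one_mul]
    exact hbm

end Pool.Agent.N295.RC
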