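import Mathlib

/-!
# Uniform oscillation

For an integrable `G` supported in `(0, ∞)` the integrals
`∫ exp(i t x) exp(2 i n arctan x) G x dx` tend to `0` as `n → ∞`, uniformly in `t`.
-/

set_option autoImplicit false

open MeasureTheory Filter Topology Set

namespace Pool.Agent.N295.RC

/-- the unimodular exponential -/
noncomputable def E (y : ℝ) : ℂ := Complex.exp ((y : ℂ) * Complex.I)

lemma norm_E (y : ℝ) : ‖E y‖ = 1 := Complex.norm_exp_ofReal_mul_I y

lemma E_add (x y : ℝ) : E (x + y) = E x * E y := by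
  unfold E; rw [← Complex.exp_add]; congr 1; push_cast; ring

lemma E_zero : E 0 = 1 := by simp [E]

lemma E_cont : Continuous E := by unfold E; fun_prop

lemma conj_E (y : ℝ) : (starRingEnd ℂ) (E y) = E (-y) := by
  unfold E
  rw [← Complex.exp_conj]
  congr 1
  rw [map_mul, Complex.conj_I, Complex.conj_ofReal]
  push_cast; ring

lemma E_nat_mul (n : ℕ) (y : ℝ) : E ((n : ℝ) * y) = E y ^ n := by
  unfold E
  rw [← Complex.exp_nat_mul]
  congr 1
  push_cast; ring

/-- Riemann-Lebesgue along the integers -/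
lemma rl_nat (f : ℝ → ℂ) :
    Tendsto (fun n : ℕ => ∫ v : ℝ, E ((n : ℝ) * v) * f v) atTop (𝓝 0) := by
  have h := Real.tendsto_integral_exp_smul_cocompact f
  have h2 : Tendsto (fun n : ℕ => -((n : ℝ) / (2 * Real.pi))) atTop (cocompact ℝ) := by
    have h3 : Tendsto (fun n : ℕ => (n : ℝ) / (2 * Real.pi)) atTop atTop :=
      tendsto_natCast_atTop_atTop.atTop_div_const (by have := Real.pi_pos; positivity)
    have h4 : Tendsto (fun n : ℕ => -((n : ℝ) / (2 * Real.pi))) atTop atBot :=
      tendsto_neg_atTop_atBot.comp h3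
    exact h4.mono_right atBot_le_cocompact
  refine (h.comp h2).congr fun n => ?_
  simp only [Function.comp]
  apply integral_congr_ae
  refine Eventually.of_forall fun v => ?_
  simp only
  rw [Circle.smul_def, smul_eq_mul, Real.fourierChar_apply]
  congr 1
  unfold E
  congr 1
  have := Real.pi_pos.ne'
  push_cast
  have h5 : (Real.pi : ℂ) ≠ 0 := by exact_mod_cast this
  field_simp

/-- Riemann-Lebesgue in the real parameter -/
lemma rl_real (f : ℝ → ℂ) :
    Tendsto (fun t : ℝ => ∫ v : ℝ, E (t * v) * f v) (cocompact ℝ) (𝓝 0) := by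
  have h := Real.tendsto_integral_exp_smul_cocompact f
  have h2 : Tendsto (fun t : ℝ => (-(2 * Real.pi)⁻¹) * t) (cocompact ℝ) (cocompact ℝ) := by
    have := Real.pi_pos
    exact (Homeomorph.mulLeft₀ (-(2 * Real.pi)⁻¹) (by simp)).isClosedEmbedding.tendsto_cocompact
  refine (h.comp h2).congr fun t => ?_
  simp only [Function.comp]
  apply integral_congr_ae
  refine Eventually.of_forall fun v => ?_
  simp only
  rw [Circle.smul_def, smul_eq_mul, Real.fourierChar_apply]
  congr 1
  unfold E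
  congr 1
  have := Real.pi_pos.ne'
  push_cast
  have h5 : (Real.pi : ℂ) ≠ 0 := by exact_mod_cast this
  field_simp

/-- Riemann-Lebesgue for a nonlinear phase -/
lemma rl_phase {S : Set ℝ} (hS : MeasurableSet S) {ψ ψ' : ℝ → ℝ}
    (h1 : ∀ x ∈ S, HasDerivWithinAt ψ (ψ' x) S x) (h2 : ∀ x ∈ S, ψ' x ≠ 0) (h3 : InjOn ψ S)
    (a : ℝ → ℂ) :
    Tendsto (fun n : ℕ => ∫ x in S, E ((n : ℝ) * ψ x) * a x) atTop (𝓝 0) := by
  set inv : ℝ → ℝ := Function.invFunOn ψ S with hinv
  have hi : ∀ x ∈ S, inv (ψ x) = x := fun x hx => h3.leftInvOn_invFunOn hx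
  set b : ℝ → ℂ := fun u => (((|ψ' (inv u)|)⁻¹ : ℝ) : ℂ) * a (inv u) with hb
  have hmeas : MeasurableSet (ψ '' S) := by
    apply measurable_image_of_fderivWithin hS
      (f' := fun x => ContinuousLinearMap.toSpanSingleton ℝ (ψ' x)) ?_ h3
    intro x hx
    exact (h1 x hx).hasFDerivWithinAt
  have key : ∀ n : ℕ, ∫ x in S, E ((n : ℝ) * ψ x) * a x =
      ∫ u : ℝ, E ((n : ℝ) * u) * (ψ '' S).indicator b u := by
    intro n
    have h4 := integral_image_eq_integral_abs_deriv_smul hS h1 h3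
      (fun u => E ((n : ℝ) * u) * b u)
    have h5 : ∫ x in S, |ψ' x| • (E ((n : ℝ) * ψ x) * b (ψ x)) =
        ∫ x in S, E ((n : ℝ) * ψ x) * a x := by
      apply setIntegral_congr_fun hS
      intro x hx
      simp only [hb, hi x hx]
      have h6 : |ψ' x| ≠ 0 := abs_ne_zero.2 (h2 x hx)
      have h7 : ((|ψ' x| : ℝ) : ℂ) ≠ 0 := by exact_mod_cast h6
      rw [Complex.real_smul, Complex.ofReal_inv]
      field_simp
    rw [← h5, ← h4, ← integral_indicator hmeas]
    congr 1
    funext u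
    by_cases hu : u ∈ ψ '' S
    · rw [indicator_of_mem hu, indicator_of_mem hu]
    · rw [indicator_of_notMem hu, indicator_of_notMem hu, mul_zero]
  simp_rw [key]
  exact rl_nat _

/-- the phase: `exp(i ph x) = (1 + i x) / (1 - i x)` -/
noncomputable def ph (x : ℝ) : ℝ := 2 * Real.arctan x

lemma ph_cont : Continuous ph := continuous_const.mul Real.continuous_arctan

lemma ph_deriv (x : ℝ) : HasDerivAt ph (2 * (1 / (1 + x ^ 2))) x :=
  (Real.hasDerivAt_arctan x).const_mul 2

lemma phd (h x : ℝ) : HasDerivAt (fun y => ph y - ph (y + h))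
    (2 * (1 / (1 + x ^ 2)) - 2 * (1 / (1 + (x + h) ^ 2))) x := by
  have h1 : HasDerivAt (fun y : ℝ => y + h) 1 x := by
    simpa using (hasDerivAt_id x).add_const h
  have h2 := (ph_deriv (x + h)).comp x h1
  have h3 := (ph_deriv x).sub h2
  rw [mul_one] at h3
  exact h3

lemma phd_ne {h x : ℝ} (hh : h ≠ 0) (h0 : 0 < x) (h1 : 0 < x + h) :
    2 * (1 / (1 + x ^ 2)) - 2 * (1 / (1 + (x + h) ^ 2)) ≠ 0 := by
  intro H
  have h2 : (0 : ℝ) < 1 + x ^ 2 := by positivity
  have h3 : (0 : ℝ) < 1 + (x + h) ^ 2 := by positivity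
  rw [sub_eq_zero] at H
  have h4 : 1 + x ^ 2 = 1 + (x + h) ^ 2 := by
    field_simp at H
    linarith
  have h5 : h * (2 * x + h) = 0 := by nlinarith
  rcases mul_eq_zero.1 h5 with h6 | h6
  · exact hh h6
  · linarith

lemma ph_injOn {h : ℝ} (hh : h ≠ 0) :
    InjOn (fun y => ph y - ph (y + h)) {x : ℝ | 0 < x ∧ 0 < x + h} := by
  intro x hx y hy hxy
  by_contra hne
  wlog hlt : x < y generalizing x y with H
  · exact H hy hx hxy.symm (Ne.symm hne) (lt_of_le_of_ne (not_lt.1 hlt) (Ne.symm hne))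
  obtain ⟨c, hc, hc2⟩ := exists_hasDerivAt_eq_zero hlt
    (f := fun y => ph y - ph (y + h))
    (f' := fun x => 2 * (1 / (1 + x ^ 2)) - 2 * (1 / (1 + (x + h) ^ 2)))
    (fun z _ => (phd h z).continuousAt.continuousWithinAt) hxy (fun z _ => phd h z)
  exact phd_ne hh (hx.1.trans hc.1) (by linarith [hx.2, hc.1]) hc2

/-- the correlation -/
noncomputable def J (G : ℝ → ℂ) (n : ℕ) (h : ℝ) : ℂ :=
  ∫ x : ℝ, E ((n : ℝ) * (ph x - ph (x + h))) * (G x * (starRingEnd ℂ) (G (x + h)))

lemma J_tendsto {G : ℝ → ℂ} (hs : ∀ x ≤ 0, G x = 0) {h : ℝ} (hh : h ≠ 0) :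
    Tendsto (fun n => J G n h) atTop (𝓝 0) := by
  have hS : MeasurableSet {x : ℝ | 0 < x ∧ 0 < x + h} :=
    (measurableSet_lt measurable_const measurable_id).inter
      (measurableSet_lt measurable_const (measurable_id.add_const h))
  have h1 := rl_phase hS (ψ := fun y => ph y - ph (y + h))
    (ψ' := fun x => 2 * (1 / (1 + x ^ 2)) - 2 * (1 / (1 + (x + h) ^ 2)))
    (fun x _ => (phd h x).hasDerivWithinAt) (fun x hx => phd_ne hh hx.1 hx.2) (ph_injOn hh)
    (fun x => G x * (starRingEnd ℂ) (G (x + h)))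
  refine h1.congr fun n => ?_
  unfold J
  apply setIntegral_eq_integral_of_forall_compl_eq_zero
  intro x hx
  by_cases h0 : 0 < x
  · have h2 : ¬ 0 < x + h := fun h3 => hx ⟨h0, h3⟩
    rw [hs (x + h) (not_lt.1 h2)]
    simp
  · rw [hs x (not_lt.1 h0)]
    simp

lemma corr_integrable {F : ℝ → ℂ} (hF : Integrable F) :
    Integrable (fun z : ℝ × ℝ => F z.1 * (starRingEnd ℂ) (F (z.1 + z.2)))
      (volume.prod volume) := by
  have h0 : Integrable (fun x => (starRingEnd ℂ) (F x)) volume :=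
    Complex.conjLIE.toContinuousLinearEquiv.toContinuousLinearMap.integrable_comp hF
  have h1 : Integrable (fun z : ℝ × ℝ => F z.1 * (starRingEnd ℂ) (F z.2))
      (volume.prod volume) := hF.mul_prod (g := fun x => (starRingEnd ℂ) (F x)) h0
  have h2 := measurePreserving_prod_add (volume : Measure ℝ) (volume : Measure ℝ)
  exact h2.integrable_comp_of_integrable h1

lemma sq_eq {F : ℝ → ℂ} (hF : Integrable F) :
    (∫ x, F x) * (starRingEnd ℂ) (∫ x, F x) =
      ∫ h : ℝ, ∫ x : ℝ, F x * (starRingEnd ℂ) (F (x + h)) := by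
  rw [← integral_conj, ← integral_prod_mul]
  have h2 := measurePreserving_prod_add (volume : Measure ℝ) (volume : Measure ℝ)
  have h3 : MeasurableEmbedding (fun z : ℝ × ℝ => (z.1, z.1 + z.2)) :=
    (MeasurableEquiv.shearAddRight ℝ).measurableEmbedding
  rw [← h2.integral_comp h3]
  exact integral_prod_symm _ (corr_integrable hF)

/-- **Uniform oscillation.** -/
theorem unif {G : ℝ → ℂ} (hG : Integrable G) (hs : ∀ x ≤ 0, G x = 0) {ε : ℝ} (hε : 0 < ε) :
    ∀ᶠ n : ℕ in atTop, ∀ t : ℝ, ‖∫ x : ℝ, E (t * x) * (E ((n : ℝ) * ph x) * G x)‖ ≤ ε := by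
  have hbound : Integrable (fun h : ℝ => ∫ x : ℝ, ‖G x * (starRingEnd ℂ) (G (x + h))‖) := by
    have := (corr_integrable hG).norm
    exact this.integral_prod_right
  have hJmeas : ∀ n : ℕ, AEStronglyMeasurable (fun h => J G n h) volume := by
    intro n
    have h1 : AEStronglyMeasurable (fun z : ℝ × ℝ => E ((n : ℝ) * (ph z.1 - ph (z.1 + z.2))) *
        (G z.1 * (starRingEnd ℂ) (G (z.1 + z.2)))) (volume.prod volume) := by
      apply AEStronglyMeasurable.mul _ (corr_integrable hG).aestronglyMeasurable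
      apply Continuous.aestronglyMeasurable
      have := ph_cont
      have := E_cont
      fun_prop
    exact h1.integral_prod_right' (E := ℂ) |> fun h => by
      simpa [J] using (h1.prod_swap.integral_prod_right')
  have hle : ∀ (n : ℕ) (h : ℝ), ‖J G n h‖ ≤ ∫ x : ℝ, ‖G x * (starRingEnd ℂ) (G (x + h))‖ := by
    intro n h
    unfold J
    refine (norm_integral_le_integral_norm _).trans (le_of_eq ?_)
    congr 1
    funext x
    rw [norm_mul, norm_E, one_mul]
  have hlim : Tendsto (fun n : ℕ => ∫ h : ℝ, ‖J G n h‖) atTop (𝓝 0) := by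
    have h1 : Tendsto (fun n : ℕ => ∫ h : ℝ, ‖J G n h‖) atTop (𝓝 (∫ _ : ℝ, (0 : ℝ))) := by
      apply tendsto_integral_of_dominated_convergence _ (fun n => (hJmeas n).norm) hbound
      · intro n
        refine Eventually.of_forall fun h => ?_
        rw [norm_norm]
        exact hle n h
      · have : ∀ᵐ h : ℝ, h ≠ 0 := by
          simp [ae_iff]
        filter_upwards [this] with h hh
        have := (J_tendsto hs hh).norm
        simpa using this
    simpa using h1
  have hε2 : 0 < ε ^ 2 := by positivity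
  filter_upwards [hlim.eventually_le_const hε2] with n hn t
  set F : ℝ → ℂ := fun x => E (t * x) * (E ((n : ℝ) * ph x) * G x) with hF
  have hFi : Integrable F := by
    have h5 : Integrable (fun x => (E (t * x) * E ((n : ℝ) * ph x)) * G x) volume := by
      apply hG.bdd_mul (c := 1)
      · apply Continuous.aestronglyMeasurable
        have := ph_cont
        have := E_cont
        fun_prop
      · refine Eventually.of_forall fun x => ?_
        rw [norm_mul, norm_E, norm_E, one_mul]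
    refine h5.congr (Eventually.of_forall fun x => ?_)
    simp only [hF, mul_assoc]
  have h1 := sq_eq hFi
  have h2 : ∀ h x : ℝ, F x * (starRingEnd ℂ) (F (x + h)) =
      E (-(t * h)) * (E ((n : ℝ) * (ph x - ph (x + h))) * (G x * (starRingEnd ℂ) (G (x + h)))) := by
    intro h x
    simp only [hF, map_mul, conj_E]
    have e1 : E (-(t * h)) = E (t * x) * E (-(t * (x + h))) := by
      rw [← E_add]; congr 1; ring
    have e2 : E ((n : ℝ) * (ph x - ph (x + h))) = E ((n : ℝ) * ph x) * E (-((n : ℝ) * ph (x + h))) := by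
      rw [← E_add]; congr 1; ring
    rw [e1, e2]; ring
  have h3 : ‖∫ x, F x‖ ^ 2 ≤ ε ^ 2 := by
    calc ‖∫ x, F x‖ ^ 2 = ‖(∫ x, F x) * (starRingEnd ℂ) (∫ x, F x)‖ := by
          rw [norm_mul, RCLike.norm_conj, sq]
      _ = ‖∫ h : ℝ, E (-(t * h)) * J G n h‖ := by
          rw [h1]
          congr 2
          funext h
          simp_rw [h2]
          rw [integral_const_mul]
          rfl
      _ ≤ ∫ h : ℝ, ‖E (-(t * h)) * J G n h‖ := norm_integral_le_integral_norm _
      _ = ∫ h : ℝ, ‖J G n h‖ := by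
          congr 1
          funext h
          rw [norm_mul, norm_E, one_mul]
      _ ≤ ε ^ 2 := hn
  exact (sq_le_sq₀ (norm_nonneg _) hε.le).1 h3

end Pool.Agent.N295.RC
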