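import Pool.Agent.N295.RC.Osc

/-!
# A Riesz product in the variable `2 arctan x` on `[1, 2]`
-/

set_option autoImplicit false

open MeasureTheory Filter Topology Set

namespace Pool.Agent.N295.RC

/-- the integral of `f` against the density `g` on `[1, 2]` -/
noncomputable def om (g : ℝ → ℝ) (f : ℝ → ℂ) : ℂ := ∫ x in Icc (1 : ℝ) 2, f x * (g x : ℂ)

/-- the test functions `E (t x) E (- m ph x)` -/
noncomputable def tf (t : ℝ) (m : ℕ) (x : ℝ) : ℂ := E (t * x) * E (-((m : ℝ) * ph x))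

lemma tf_cont (t : ℝ) (m : ℕ) : Continuous (tf t m) := by
  have := ph_cont
  have := E_cont
  unfold tf
  fun_prop

lemma norm_tf (t : ℝ) (m : ℕ) (x : ℝ) : ‖tf t m x‖ = 1 := by
  unfold tf; rw [norm_mul, norm_E, norm_E, one_mul]

lemma int_on {f : ℝ → ℂ} (hf : Continuous f) : IntegrableOn f (Icc (1 : ℝ) 2) :=
  hf.continuousOn.integrableOn_Icc

lemma ind_integrable {f : ℝ → ℂ} (hf : Continuous f) :
    Integrable ((Icc (1 : ℝ) 2).indicator f) :=
  (integrable_indicator_iff measurableSet_Icc).2 (int_on hf)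

/-- `unif` for continuous functions on `[1, 2]`, positive frequencies -/
lemma unif_pos {a : ℝ → ℂ} (ha : Continuous a) {ε : ℝ} (hε : 0 < ε) :
    ∀ᶠ n : ℕ in atTop, ∀ t : ℝ,
      ‖∫ x in Icc (1 : ℝ) 2, E (t * x) * (E ((n : ℝ) * ph x) * a x)‖ ≤ ε := by
  have h := unif (ind_integrable ha) (by
    intro x hx
    apply indicator_of_notMem
    intro h1
    linarith [h1.1]) hε
  filter_upwards [h] with n hn t
  refine (le_of_eq ?_).trans (hn t)
  rw [← integral_indicator measurableSet_Icc]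
  congr 2
  funext x
  by_cases hx : x ∈ Icc (1 : ℝ) 2
  · rw [indicator_of_mem hx, indicator_of_mem hx]
  · rw [indicator_of_notMem hx, indicator_of_notMem hx, mul_zero, mul_zero]

/-- `unif` for continuous functions on `[1, 2]`, negative frequencies -/
lemma unif_neg {a : ℝ → ℂ} (ha : Continuous a) {ε : ℝ} (hε : 0 < ε) :
    ∀ᶠ n : ℕ in atTop, ∀ t : ℝ,
      ‖∫ x in Icc (1 : ℝ) 2, E (t * x) * (E (-((n : ℝ) * ph x)) * a x)‖ ≤ ε := by
  have ha' : Continuous fun x => (starRingEnd ℂ) (a x) := Complex.continuous_conj.comp ha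
  filter_upwards [unif_pos ha' hε] with n hn t
  refine (le_of_eq ?_).trans (hn (-t))
  rw [← RCLike.norm_conj, ← integral_conj]
  congr 2
  funext x
  simp only [map_mul, conj_E, neg_neg]
  congr 2
  ring

/-- the new density -/
noncomputable def nd (g : ℝ → ℝ) (n : ℕ) (x : ℝ) : ℝ := g x * (1 + Real.cos ((n : ℝ) * ph x))

lemma nd_cont {g : ℝ → ℝ} (hg : Continuous g) (n : ℕ) : Continuous (nd g n) := by
  have := ph_cont
  unfold nd
  fun_prop

lemma nd_nonneg {g : ℝ → ℝ} (hg : ∀ x, 0 ≤ g x) (n : ℕ) (x : ℝ) : 0 ≤ nd g n x := by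
  unfold nd
  have := Real.neg_one_le_cos ((n : ℝ) * ph x)
  exact mul_nonneg (hg x) (by linarith)

lemma cos_E (y : ℝ) : ((Real.cos y : ℝ) : ℂ) = (E y + E (-y)) / 2 := by
  unfold E
  rw [Complex.ofReal_cos, Complex.cos]
  push_cast
  ring

lemma om_nd {g : ℝ → ℝ} (hg : Continuous g) (n : ℕ) {f : ℝ → ℂ} (hf : Continuous f) :
    om (nd g n) f - om g f = (∫ x in Icc (1 : ℝ) 2, E ((n : ℝ) * ph x) * (f x * (g x : ℂ))) / 2 +
      (∫ x in Icc (1 : ℝ) 2, E (-((n : ℝ) * ph x)) * (f x * (g x : ℂ))) / 2 := by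
  have hgc : Continuous fun x => (g x : ℂ) := Complex.continuous_ofReal.comp hg
  have hnc : Continuous fun x => (nd g n x : ℂ) := Complex.continuous_ofReal.comp (nd_cont hg n)
  have := ph_cont
  have := E_cont
  have e1 : Continuous fun x => E ((n : ℝ) * ph x) * (f x * (g x : ℂ)) := by fun_prop
  have e2 : Continuous fun x => E (-((n : ℝ) * ph x)) * (f x * (g x : ℂ)) := by fun_prop
  have e3 : Continuous fun x => f x * (nd g n x : ℂ) := by fun_prop
  have e4 : Continuous fun x => f x * (g x : ℂ) := by fun_prop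
  unfold om
  rw [← integral_sub (int_on e3) (int_on e4), ← integral_div, ← integral_div,
    ← integral_add (int_on (e1.div_const 2)) (int_on (e2.div_const 2))]
  congr 1
  funext x
  unfold nd
  rw [Complex.ofReal_mul, Complex.ofReal_add, cos_E]
  push_cast
  ring

/-- one step: the change of the coefficients of bounded order is small -/
lemma step_small {g : ℝ → ℝ} (hg : Continuous g) (N : ℕ) {ε : ℝ} (hε : 0 < ε) :
    ∀ᶠ n : ℕ in atTop, ∀ m ≤ N, ∀ t : ℝ, ‖om (nd g n) (tf t m) - om g (tf t m)‖ ≤ ε := by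
  have h : ∀ m : ℕ, ∀ᶠ n : ℕ in atTop, ∀ t : ℝ,
      ‖om (nd g n) (tf t m) - om g (tf t m)‖ ≤ ε := by
    intro m
    have hc : Continuous fun x => E (-((m : ℝ) * ph x)) * (g x : ℂ) := by
      have := ph_cont
      have := E_cont
      fun_prop
    filter_upwards [unif_pos hc hε, unif_neg hc hε] with n h1 h2 t
    rw [om_nd hg n (tf_cont t m)]
    have e1 : ∀ s : ℝ, ∫ x in Icc (1 : ℝ) 2, E s * 0 = (0 : ℂ) := by simp
    have e2 : ∫ x in Icc (1 : ℝ) 2, E ((n : ℝ) * ph x) * (tf t m x * (g x : ℂ)) =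
        ∫ x in Icc (1 : ℝ) 2, E (t * x) * (E ((n : ℝ) * ph x) * (E (-((m : ℝ) * ph x)) * (g x : ℂ))) := by
      congr 1; funext x; unfold tf; ring
    have e3 : ∫ x in Icc (1 : ℝ) 2, E (-((n : ℝ) * ph x)) * (tf t m x * (g x : ℂ)) =
        ∫ x in Icc (1 : ℝ) 2, E (t * x) * (E (-((n : ℝ) * ph x)) * (E (-((m : ℝ) * ph x)) * (g x : ℂ))) := by
      congr 1; funext x; unfold tf; ring
    rw [e2, e3]
    refine (norm_add_le _ _).trans ?_
    rw [norm_div, norm_div]
    have h3 := h1 t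
    have h4 := h2 t
    have : ‖(2 : ℂ)‖ = 2 := by simp
    rw [this]
    linarith
  exact (Filter.eventually_all_finite (Set.finite_le_nat N)).2 (fun m _ => h m)

/-- one step: the new coefficient is about half of the mass -/
lemma step_big {g : ℝ → ℝ} (hg : Continuous g) {ε : ℝ} (hε : 0 < ε) :
    ∀ᶠ n : ℕ in atTop, ‖om (nd g n) (tf 0 n) - om g (tf 0 0) / 2‖ ≤ ε := by
  have hgc : Continuous fun x => (g x : ℂ) := Complex.continuous_ofReal.comp hg
  have h1 := unif_neg hgc (half_pos hε)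
  have h2 : ∀ᶠ n : ℕ in atTop, ∀ t : ℝ,
      ‖∫ x in Icc (1 : ℝ) 2, E (t * x) * (E (-(((2 * n : ℕ) : ℝ) * ph x)) * (g x : ℂ))‖ ≤ ε / 2 :=
    (tendsto_id.const_mul_atTop' (by norm_num : 0 < 2)).eventually h1
  filter_upwards [h1, h2] with n h3 h4
  have h3 := h3 0
  have h4 := h4 0
  have := ph_cont
  have := E_cont
  have a1 := om_nd hg n (tf_cont 0 n)
  have e0 : om g (tf 0 n) = ∫ x in Icc (1 : ℝ) 2, E (0 * x) * (E (-((n : ℝ) * ph x)) * (g x : ℂ)) := by
    unfold om tf; congr 1; funext x; ring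
  have e1 : ∫ x in Icc (1 : ℝ) 2, E ((n : ℝ) * ph x) * (tf 0 n x * (g x : ℂ)) = om g (tf 0 0) := by
    unfold om tf
    congr 1
    funext x
    have : E ((n : ℝ) * ph x) * E (-((n : ℝ) * ph x)) = 1 := by
      rw [← E_add, add_neg_cancel, E_zero]
    have h0 : E (-(((0 : ℕ) : ℝ) * ph x)) = 1 := by simp [E_zero]
    rw [h0]
    calc _ = (E ((n : ℝ) * ph x) * E (-((n : ℝ) * ph x))) * (E (0 * x) * (g x : ℂ)) := by ring
      _ = _ := by rw [this]; ring
  have e2 : ∫ x in Icc (1 : ℝ) 2, E (-((n : ℝ) * ph x)) * (tf 0 n x * (g x : ℂ)) =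
      ∫ x in Icc (1 : ℝ) 2, E (0 * x) * (E (-(((2 * n : ℕ) : ℝ) * ph x)) * (g x : ℂ)) := by
    unfold tf
    congr 1
    funext x
    have : E (-(((2 * n : ℕ) : ℝ) * ph x)) = E (-((n : ℝ) * ph x)) * E (-((n : ℝ) * ph x)) := by
      rw [← E_add]; congr 1; push_cast; ring
    rw [this]; ring
  rw [e0, e1, e2] at a1
  have e3 : om (nd g n) (tf 0 n) - om g (tf 0 0) / 2 =
      (∫ x in Icc (1 : ℝ) 2, E (0 * x) * (E (-((n : ℝ) * ph x)) * (g x : ℂ))) +
      (∫ x in Icc (1 : ℝ) 2, E (0 * x) * (E (-(((2 * n : ℕ) : ℝ) * ph x)) * (g x : ℂ))) / 2 := by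
    linear_combination a1
  rw [e3]
  refine (norm_add_le _ _).trans ?_
  rw [norm_div]
  have : ‖(2 : ℂ)‖ = 2 := by simp
  rw [this]
  linarith

/-- the tolerance -/
noncomputable def tol (j : ℕ) : ℝ := (1 / 16) * (1 / 2) ^ j

lemma tol_pos (j : ℕ) : 0 < tol j := by unfold tol; positivity

/-- the states -/
structure St where
  g : ℝ → ℝ
  c : Continuous g
  nn : ∀ x, 0 ≤ g x
  N : ℕ

lemma exists_n (s : St) (j : ℕ) : ∃ n : ℕ, s.N < n ∧
    (∀ m ≤ s.N, ∀ t : ℝ, ‖om (nd s.g n) (tf t m) - om s.g (tf t m)‖ ≤ tol j) ∧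
    ‖om (nd s.g n) (tf 0 n) - om s.g (tf 0 0) / 2‖ ≤ tol j :=
  ((eventually_gt_atTop s.N).and ((step_small s.c s.N (tol_pos j)).and
    (step_big s.c (tol_pos j)))).exists

/-- the sequence of the states -/
noncomputable def sq : ℕ → St
  | 0 => ⟨fun _ => 1, continuous_const, fun _ => zero_le_one, 0⟩
  | (j + 1) => ⟨nd (sq j).g (exists_n (sq j) j).choose, nd_cont (sq j).c _,
      nd_nonneg (sq j).nn _, (exists_n (sq j) j).choose⟩

lemma sq_lt (j : ℕ) : (sq j).N < (sq (j + 1)).N := (exists_n (sq j) j).choose_spec.1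

lemma sq_small (j : ℕ) {m : ℕ} (hm : m ≤ (sq j).N) (t : ℝ) :
    ‖om (sq (j + 1)).g (tf t m) - om (sq j).g (tf t m)‖ ≤ tol j :=
  (exists_n (sq j) j).choose_spec.2.1 m hm t

lemma sq_big (j : ℕ) :
    ‖om (sq (j + 1)).g (tf 0 (sq (j + 1)).N) - om (sq j).g (tf 0 0) / 2‖ ≤ tol j :=
  (exists_n (sq j) j).choose_spec.2.2

lemma sq_mono : StrictMono fun j => (sq j).N := strictMono_nat_of_lt_succ sq_lt

/-- from stage `k` on the coefficients of order at most `N k` change by at most `2 tol k` -/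
lemma sq_stable {k : ℕ} {m : ℕ} (hm : m ≤ (sq k).N) (t : ℝ) (j : ℕ) :
    ‖om (sq (k + j)).g (tf t m) - om (sq k).g (tf t m)‖ ≤ 2 * tol k * (1 - (1 / 2) ^ j) := by
  induction j with
  | zero => simp
  | succ j ih =>
    have h1 := sq_small (k + j) (hm.trans (sq_mono.monotone (Nat.le_add_right k j))) t
    have h2 : tol (k + j) = tol k * (1 / 2) ^ j := by unfold tol; rw [pow_add]; ring
    have h3 : om (sq (k + (j + 1))).g (tf t m) - om (sq k).g (tf t m) =
        (om (sq (k + j + 1)).g (tf t m) - om (sq (k + j)).g (tf t m)) +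
        (om (sq (k + j)).g (tf t m) - om (sq k).g (tf t m)) := by
      rw [show k + (j + 1) = k + j + 1 by ring]; ring
    rw [h3]
    refine (norm_add_le _ _).trans ?_
    rw [h2] at h1
    rw [pow_succ]
    linarith

lemma sq_stable' {k : ℕ} {m : ℕ} (hm : m ≤ (sq k).N) (t : ℝ) {j : ℕ} (hj : k ≤ j) :
    ‖om (sq j).g (tf t m) - om (sq k).g (tf t m)‖ ≤ 2 * tol k := by
  obtain ⟨i, rfl⟩ := Nat.exists_eq_add_of_le hj
  refine (sq_stable hm t i).trans ?_
  have h1 := tol_pos k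
  have h2 : (0 : ℝ) < (1 / 2) ^ i := by positivity
  nlinarith

lemma om_zero : om (sq 0).g (tf 0 0) = 1 := by
  have h : ∀ x : ℝ, tf 0 0 x * (((sq 0).g x : ℝ) : ℂ) = 1 := by
    intro x
    simp [tf, sq, E_zero]
  unfold om
  simp_rw [h]
  simp
  norm_num

/-- the mass -/
lemma mass (j : ℕ) : ‖om (sq j).g (tf 0 0) - 1‖ ≤ 1 / 8 := by
  have := sq_stable' (k := 0) (m := 0) (Nat.zero_le _) 0 (Nat.zero_le j)
  rw [om_zero] at this
  refine this.trans (le_of_eq ?_)
  unfold tol; norm_num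

/-- the large coefficients -/
lemma large {k j : ℕ} (hj : k + 1 ≤ j) : 1 / 4 ≤ ‖om (sq j).g (tf 0 (sq (k + 1)).N)‖ := by
  have h1 := sq_stable' (k := k + 1) (m := (sq (k + 1)).N) le_rfl 0 hj
  have h2 := sq_big k
  have h3 := mass k
  have h4 : tol k ≤ 1 / 16 := by
    unfold tol
    have : (1 / 2 : ℝ) ^ k ≤ 1 := pow_le_one₀ (by norm_num) (by norm_num)
    linarith
  have h5 : tol (k + 1) ≤ 1 / 32 := by
    unfold tol
    have : (1 / 2 : ℝ) ^ k ≤ 1 := pow_le_one₀ (by norm_num) (by norm_num)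
    rw [pow_succ]
    linarith
  set a := om (sq j).g (tf 0 (sq (k + 1)).N)
  set b := om (sq (k + 1)).g (tf 0 (sq (k + 1)).N)
  set c := om (sq k).g (tf 0 0)
  have h6 : (1 : ℂ) / 2 = a - (a - b) - (b - c / 2) - (c - 1) / 2 := by ring
  have h7 : ‖(1 : ℂ) / 2‖ ≤ ‖a‖ + ‖a - b‖ + ‖b - c / 2‖ + ‖(c - 1) / 2‖ := by
    rw [h6]
    refine (norm_sub_le _ _).trans ?_
    gcongr
    refine (norm_sub_le _ _).trans ?_
    gcongr
    exact norm_sub_le _ _
  have h8 : ‖(1 : ℂ) / 2‖ = 1 / 2 := by simp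
  have h9 : ‖(c - 1) / 2‖ ≤ 1 / 16 := by
    rw [norm_div]
    have : ‖(2 : ℂ)‖ = 2 := by simp
    rw [this]; linarith
  rw [h8] at h7
  linarith

end Pool.Agent.N295.RC
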